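import Pool.Agent.W221.NS.Stm2
import Pool.Agent.H459R3.NS.Ibp
import Pool.Agent.H459R3.NS.Four

/-!
Project ME (helper221): the dissipation of the cut-off field.
-/

open MeasureTheory Set Metric
open scoped ContDiff ENNReal

namespace Pool.Agent.W376.ME

open H459R3.NS W221.NS

theorem gsq_cut (u : V → V) {y : V} (hy : y ∈ ball (0 : V) 3) :
    gsq (fun x => zt x • u x) y = gsq u y := by
  have h1 : ∀ i, (fun z => (zt z • u z) i) =ᶠ[nhds y] fun z => u z i := by
    intro i
    filter_upwards [isOpen_ball.mem_nhds hy] with z hz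
    have h2 : zt z = 1 := zt.one_of_mem_closedBall (ball_subset_closedBall hz)
    simp [h2]
  unfold gsq
  refine Finset.sum_congr rfl fun i _ => Finset.sum_congr rfl fun j _ => ?_
  have h3 : pd j (fun z => (zt z • u z) i) y = pd j (fun z => u z i) y := by
    unfold pd
    rw [(h1 i).fderiv_eq]
  rw [h3]

/-- the shift of a cell -/
def shf (m : Fin 3 → Fin 6) : K3 := fun i => ((m i : ℕ) : ℤ) - 3

/-- the translates of the cell -/
def cell (m : Fin 3 → Fin 6) : Set V := (fun x => x - fun i => (shf m i : ℝ)) ⁻¹' cube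

theorem cover : ball (0 : V) 3 ⊆ ⋃ m, cell m := by
  intro x hx
  rw [mem_ball_zero_iff, pi_norm_lt_iff (by norm_num)] at hx
  have h1 : ∀ i, ∃ k : Fin 6, 0 ≤ x i - ((((k : ℕ) : ℤ) - 3 : ℤ) : ℝ) ∧
      x i - ((((k : ℕ) : ℤ) - 3 : ℤ) : ℝ) ≤ 1 := by
    intro i
    have h2 := hx i
    rw [Real.norm_eq_abs, abs_lt] at h2
    have h3 : -3 ≤ ⌊x i⌋ := Int.le_floor.2 (by push_cast; linarith [h2.1])
    have h4 : ⌊x i⌋ < 3 := Int.floor_lt.2 (by push_cast; exact h2.2)
    refine ⟨⟨(⌊x i⌋ + 3).toNat, by omega⟩, ?_⟩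
    have h5 : ((((⌊x i⌋ + 3).toNat : ℕ) : ℤ) - 3 : ℤ) = ⌊x i⌋ := by omega
    simp only [h5]
    have h6 := Int.floor_le (x i)
    have h7 := Int.lt_floor_add_one (x i)
    constructor <;> linarith
  choose k hk using h1
  refine Set.mem_iUnion.2 ⟨k, ?_⟩
  exact ⟨fun i => (hk i).1, fun i => (hk i).2⟩

theorem t_PERE : S_PERE := by
  intro u hu
  have hsp : ∀ i, SP (fun y => u y i) := fun i =>
    ⟨(contDiff_pi.mp hu.1) i, fun j x => by rw [hu.2 j x]⟩
  have hpd : ∀ i j, SP (pd j (fun y => u y i)) := fun i j => (hsp i).pd j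
  have hgc : Continuous (gsq u) := by
    unfold gsq
    exact continuous_finsetSum _ fun i _ => continuous_finsetSum _ fun j _ =>
      ((hpd i j).cont).pow 2
  have hgp : Per (gsq u) := by
    intro k x
    unfold gsq
    refine Finset.sum_congr rfl fun i _ => Finset.sum_congr rfl fun j _ => ?_
    rw [(hpd i j).per k x]
  have hg0 : ∀ x, 0 ≤ gsq u x := fun x =>
    Finset.sum_nonneg fun i _ => Finset.sum_nonneg fun j _ => sq_nonneg _
  have h4 : ∫ x in cube, gsq u x = enstrophy u := by
    unfold gsq enstrophy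
    rw [integral_finsetSum]
    · refine Finset.sum_congr rfl fun i _ => ?_
      rw [integral_finsetSum]
      intro j _
      exact integrableOn_cube (((hpd i j).cont).pow 2)
    · intro i _
      exact integrableOn_cube (continuous_finsetSum _ fun j _ => ((hpd i j).cont).pow 2)
  have hm : Measurable fun x => ENNReal.ofReal (gsq u x) := hgc.measurable.ennreal_ofReal
  have hc : MeasurableSet cube := measurableSet_Icc
  have hcell : ∀ m, ∫⁻ x in cell m, ENNReal.ofReal (gsq u x) =
      ∫⁻ x in cube, ENNReal.ofReal (gsq u x) := by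
    intro m
    have h1 := (measurePreserving_sub_right (volume : Measure V)
      (fun i => (shf m i : ℝ))).setLIntegral_comp_preimage hc hm
    rw [← h1]
    refine lintegral_congr fun x => ?_
    have h2 := hgp.int (fun i => -shf m i) x
    have h3 : (x + fun i => ((-shf m i : ℤ) : ℝ)) = x - fun i => (shf m i : ℝ) := by
      funext i
      simp [sub_eq_add_neg]
    rw [h3] at h2
    rw [h2]
  have hE : ∫⁻ x in cube, ENNReal.ofReal (gsq u x) = ENNReal.ofReal (enstrophy u) := by
    rw [← h4, ofReal_integral_eq_lintegral_ofReal (integrableOn_cube hgc)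
      (Filter.Eventually.of_forall hg0)]
  calc ∫⁻ y in ball (0 : V) 3, ENNReal.ofReal (gsq (fun x => zt x • u x) y)
      = ∫⁻ y in ball (0 : V) 3, ENNReal.ofReal (gsq u y) := by
        refine setLIntegral_congr_fun measurableSet_ball fun y hy => ?_
        simp only [gsq_cut u hy]
    _ ≤ ∫⁻ y in ⋃ m, cell m, ENNReal.ofReal (gsq u y) := lintegral_mono_set cover
    _ ≤ ∑' m, ∫⁻ y in cell m, ENNReal.ofReal (gsq u y) := lintegral_iUnion_le _ _
    _ = ENNReal.ofReal (216 * enstrophy u) := by
        simp only [hcell, hE]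
        rw [tsum_fintype, Finset.sum_const, ENNReal.ofReal_mul (by norm_num), nsmul_eq_mul]
        congr 1
        simp

end Pool.Agent.W376.ME
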